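import Pool.Agent.H65.CM.Subf
import Pool.Graph.R_pool_sql_team_seeded_2aa45f1a.Q135.Blk.Omega
import Pool.Graph.R_seed8.TH127.PG.Cond
import Pool.Graph.R_seed8.TH127.PG.TwoPairs2

/-!
# Abelian varieties with complex multiplication by nonabelian Galois CM fields

Let `A i = (E i, Φ i)` be finitely many CM types, and let `M` be the sum of the motives `h^1 (A i)`
of the corresponding abelian varieties over the field of algebraic numbers. All tensor spaces of `M`
are, up to Tate twists and duals, contained in the cohomology of the products `X` of copies of the
`A i`. By the theorem of Deligne and André Hodge classes on `X` are motivated, so over the field of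
all algebraic numbers `Ω^dRB_M = Ω^And_M` says that every de Rham-Betti class on `X`, for all `X`, is
a Hodge class (`AllHodge`).

The earlier results of the library on this question (`MildCMMotives`, `GoodClassCMMotives`,
`BlocksOfCMMotives`) treat CM fields which are abelian over `ℚ`, or satisfy conditions on the
ramification or on the excess functions. Here the condition to be abelian over `ℚ` is replaced everywhere
by the condition `OddReduced F` on a number field `F`:

* `F` is Galois over `ℚ`, and the odd part of the rational group algebra of `Gal(F / ℚ)` (the
  elements `x` with `c x = - x`, for the complex conjugation `c`) contains no `x ≠ 0` with `x ^ 2 = 0`.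

This holds if the Galois group has an abelian subgroup `B` such that all elements outside `B` have
square `c` (`DicyclicType`): for abelian fields (`B` is the whole group) and for the nonabelian CM
fields with Galois group `Q₈`, `Q₁₆`, ..., all dicyclic and generalized dicyclic groups with `c` the
distinguished involution. It also holds for other groups, for example `Q₈ × C₇`.

1. If in every block (see below) all separated families of CM subfields consist of fields with
   `OddReduced`, or are mild, or have an embedding whose class is good, then all de Rham-Betti classes
   on all products of copies of the `A i` are Hodge classes if and only if this is so for the relations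
   with two terms in every block.
2. If every block satisfies `BlockR`, then all de Rham-Betti classes on all products of copies of the
   `A i` are Hodge classes, and for every field `K` of algebraic numbers that is linearly disjoint
   from the composite of the images of the `E i` (for instance `K = ℚ`), and every abelian variety
   over `K` that is geometrically isogenous to a product of copies of the `A i`, with comparison
   isomorphism `c`, the smallest `K`-subtorsor `Ω_M` that contains `c` contains `c · MT(ℂ)`, that is
   `Ω_M = Ω^dRB_M = Ω^And_M`.
3. `BlockR` holds for a block if all its fields `E i` satisfy `OddReduced`, with ARBITRARY CM types. The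
   fields of a block are arbitrary otherwise (they may be equal or have common CM subfields).
4. `OddReduced` holds for all fields with `DicyclicType`.

The blocks: for every block some automorphism of the complex numbers conjugates the embeddings of the
fields `E i` of the block and fixes the embeddings of all other fields (`BlocksFlip`); this holds for
one block (`B` constant). The periods enter as a `PeriodSystem`: a nonzero number `θ A φ` for every CM
type `A = (E, Φ)` and every embedding `φ` of `E`, such that the theorem of Bost (de Rham-Betti classes
of degree two on abelian varieties of CM type are Hodge classes; a consequence of the theorem of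
Wüstholz) and the theorem of Deligne (Hodge classes on abelian varieties are de Rham-Betti classes)
hold. Both are theorems for the true periods.

The idea: a relation between the periods of the `A i` and its conjugates is a right ideal of the odd
part of the rational group algebra of a Galois closure. The relation comes from divisors if the ideal
contains a nonzero vector with entries `0`, `1`, `-1`. In an odd part without nilpotents right ideals
are two-sided and idempotents are central, all subgroups without `c` are normal, and modulo a suitable
such subgroup every nonzero right ideal meets the group algebra of a self-centralizing abelian normal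
subgroup; there the explicit vectors of the abelian case are available.
-/

set_option autoImplicit false

namespace Pool.Agent.Results.MP_f11a48_ag.ReducedGaloisCM

open NumberField Module Pool.Agent.W547.KB Pool.Agent.W537.PC Pool.Agent.W527.Per
  Pool.Agent.W527.Struct Pool.Agent.TH127.SC Pool.Agent.TH127.PG Pool.Agent.TH127.PT Matrix
  Pool.Agent.Q135.Blk Pool.Agent.H65.CM

/-- The smallest `K`-subtorsor which contains `M`: the intersection of all of them. -/
def smallestSubtorsor {N : Type} [Fintype N] [DecidableEq N] (K : Subfield ℂ)
    (M : Matrix N N ℂ) : Set (Matrix N N ℂ) :=
  {X | ∀ T : Set (Matrix N N ℂ), IsSubtorsor K T → M ∈ T → X ∈ T}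

/-- For all fields `K` of algebraic numbers that are linearly disjoint from the fields of the CM
types `A i`, and for all period matrices `M` of abelian varieties over `K` that are geometrically
isogenous to products of copies of the `A i`, the smallest `K`-subtorsor that contains `M` contains
`M · MT(ℂ)`. -/
def SmallestIsMotivic (P : PeriodSystem) {ι : Type} [Fintype ι] (A : ι → CMPair) : Prop :=
  ∀ (K : Subfield ℂ), (∀ x ∈ K, IsAlgebraic ℚ x) → LinearlyDisjoint A K →
    ∀ {J : Type} [Fintype J] (t : J → ι) {N : Type} [Fintype N] [DecidableEq N]
      (e : Basis N ℚ (∀ a, (A (t a)).E)) (M : Matrix N N ℂ), IsPeriodMatrix A t P e M →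
      ∀ g ∈ mumfordTate A t e, M * g ∈ smallestSubtorsor K M

/-- The condition on the members of a block. -/
def BlockR {ι : Type} (A : ι → CMPair) : Prop :=
  (ReducedMildOrGood A ∧ SimpleSubfieldsR A) ∨
    (IsPrimitive A ∧ ∀ x : Embs (fun i => (A i).E), AtMostTwoPairs x)

/-- **De Rham-Betti classes and the smallest subtorsor for abelian varieties with complex
multiplication by Galois CM fields whose odd rational group algebra has no nilpotents.** -/
theorem result (P : PeriodSystem) (hBost : P.Bost) (hDeligne : P.Deligne) {ι β : Type} [Fintype ι]
    (A : ι → CMPair) (B : ι → β) (hflip : BlocksFlip (fun i => (A i).E) B) :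
    ((∀ b, ReducedMildOrGood (fun i : {i // B i = b} => A i)) →
      (AllHodge P A ↔ ∀ b, TwoTermRelations P (fun i : {i // B i = b} => A i))) ∧
    ((∀ b, BlockR (fun i : {i // B i = b} => A i)) → AllHodge P A ∧ SmallestIsMotivic P A) ∧
    (∀ b, (∀ i, B i = b → OddReduced (A i).E) → BlockR (fun i : {i // B i = b} => A i)) ∧
    ∀ (F : Type) [Field F] [NumberField F], DicyclicType F → OddReduced F := by
  have h1 : (∀ b, AllHodge P (fun i : {i // B i = b} => A i)) → AllHodge P A :=
    allHodge_of_blocks hDeligne B hflip
  refine ⟨fun h => ?_, fun h => ?_, fun b h => ?_, fun F _ _ h => OddReduced.of_dicyclic h⟩
  · have h2 : ∀ b, AllHodge P (fun i : {i // B i = b} => A i) ↔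
        TwoTermRelations P (fun i : {i // B i = b} => A i) := fun b => by
      have _ : Fintype {i // B i = b} := Fintype.ofFinite _
      exact allHodge_iff_red _ hBost hDeligne (h b)
    exact ⟨fun h3 b => (h2 b).1 (allHodge_block B h3 b), fun h3 => h1 fun b => (h2 b).2 (h3 b)⟩
  · have hall : AllHodge P A := h1 fun b => by
      have _ : Fintype {i // B i = b} := Fintype.ofFinite _
      rcases h b with ⟨h2, h3⟩ | ⟨h2, h3⟩
      · exact (allHodge_iff_red _ hBost hDeligne h2).2
          (twoTerm_of_simpleSubfieldsR _ hBost hDeligne h3)
      · exact allHodge_of_twoPairs hBost hDeligne h2 h3
    refine ⟨hall, ?_⟩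
    intro K hK hKA J _ t N _ _ e M hM g hg T hTs hMT
    exact mem_of_subtorsor_allHodge hDeligne hall hK hKA hM hTs hMT hg
  · exact Or.inl (reduced_of_all fun i => h i.1 i.2)

end Pool.Agent.Results.MP_f11a48_ag.ReducedGaloisCM
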